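import Mathlib
import Pool.Agent.H72R2.N2.Final
import Pool.Agent.Helper948.ProP.Ex

set_option autoImplicit false

/-! The Nottingham group over the field with two elements is finitely presented as a pro-2 group.

* `Nott 2` (`Pool.Agent.Helper168.NottDefs`): power series `X + a₂X² + a₃X³ + ⋯` over `ZMod 2`, with
  product `(f * g)(X) = f(g(X))` and the topology of coefficientwise convergence.
* `IsProP p G` and `IsFreeProP p ι` (`Pool.Agent.Helper948.ProP.Defs`): pro-`p` groups and free
  pro-`p` groups with basis `ι`. -/

namespace Pool.Agent.Results.MP_e8dfcb_al.FinitelyPresented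

open Pool.Agent.Helper168.NottDefs Pool.Agent.Helper948.ProP

/-- the closed normal subgroup generated by `S` -/
def closedNormalClosure {F : Type} [Group F] [TopologicalSpace F] [IsTopologicalGroup F]
    (S : Set F) : Subgroup F :=
  (Subgroup.normalClosure S).topologicalClosure

instance {F : Type} [Group F] [TopologicalSpace F] [IsTopologicalGroup F] (S : Set F) :
    (closedNormalClosure S).Normal :=
  Subgroup.is_normal_topologicalClosure _

/-- `G` is finitely presented as a pro-`p` group: `G` is a pro-`p` group and it is isomorphic, as a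
topological group, to `F / R` with `F` a free pro-`p` group on finitely many generators and `R` the
closed normal subgroup of `F` generated by finitely many elements. -/
def IsFinitelyPresentedProP (p : ℕ) (G : Type) [Group G] [TopologicalSpace G] : Prop :=
  IsProP p G ∧
  ∃ (d : ℕ) (F : Type) (_ : Group F) (_ : TopologicalSpace F) (_ : IsTopologicalGroup F)
    (ι : Fin d → F) (S : Finset F), IsFreeProP p ι ∧
      Nonempty ((F ⧸ closedNormalClosure (S : Set F)) ≃ₜ* G)

/-- every free pro-2 group `F` on three generators has a finite subset `S` with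
`F / ⟨⟨S⟩⟩ ≅ N(F_2)` -/
theorem three_gen (F : Type) [Group F] [TopologicalSpace F] [IsTopologicalGroup F]
    (ι : Fin 3 → F) (h : IsFreeProP 2 ι) :
    ∃ S : Finset F, Nonempty ((F ⧸ closedNormalClosure (S : Set F)) ≃ₜ* Nott 2) := by
  obtain ⟨φ, hs, S, hS⟩ := Pool.Agent.H72R2.N2.finPres F ι h
  have := h.proP.compact
  exact ⟨S, Pool.Agent.H72R2.N2.iso_of_surj _ φ hs hS⟩

/-- The Nottingham group `N(F_2)` is finitely presented as a pro-2 group. -/
theorem result : IsFinitelyPresentedProP 2 (Nott 2) := by
  refine ⟨Pool.Agent.H72R2.N2.TOP2, ?_⟩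
  have : Fact (Nat.Prime 2) := ⟨Nat.prime_two⟩
  obtain ⟨F, i1, i2, ι, h⟩ := Ex.exists_isFreeProP 2 (Fin 3)
  have i3 := h.proP.topGroup
  obtain ⟨S, hS⟩ := three_gen F ι h
  exact ⟨3, F, i1, i2, i3, ι, S, h, hS⟩

end Pool.Agent.Results.MP_e8dfcb_al.FinitelyPresented
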